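import Pool.Agent.W997.UG.Prog

/-!
# Nondeterministic versus deterministic space at all levels
-/

set_option autoImplicit false

namespace Pool.Agent.W997.UG

open Finset
open Pool.Agent.W997.DB
open Pool.Agent.H554R2.Thrifty (BP exists_params_shell)

section Statement

variable {V : Type} [DecidableEq V] {k : ℕ}

/-- The function is computed by an unambiguous nondeterministic branching program of log size at
most `s` such that every halting computation has at most `t` steps and reads at most `m` different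
variables. -/
def ByUnambiguous (f : (V → Fin k) → Bool) (s t m : ℝ) : Prop :=
  ∃ P : BP V k, P.Unambiguous ∧ P.Solves f ∧ Real.log P.size ≤ s ∧
    ∀ x l r, P.IsComp x l r → (l.length : ℝ) ≤ t ∧ ((l.map P.query).toFinset.card : ℝ) ≤ m

end Statement

variable {β p h ℓ N D : ℕ} {δ : ℝ}

theorem card_right {d ρ k : ℕ} (x : Input d ρ h k) (A : Finset (Var d ρ h k))
    (hA : ∀ v ∈ A, Right x v) : A.card ≤ (h + 1) * (d ^ (ρ + 1) * d) := by
  have h1 : A ⊆ (univ : Finset ((Fin (h + 1) × Word d ρ) × Fin d)).image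
      ((sys d ρ h k).pos (valF x)) := by
    intro v hv
    obtain ⟨a, ha⟩ := hA v hv
    rw [ha]
    exact mem_image_of_mem _ (mem_univ a)
  refine (card_le_card h1).trans (card_image_le.trans (le_of_eq ?_))
  rw [card_univ, Fintype.card_prod, Fintype.card_prod, Fintype.card_fun,
    Fintype.card_fin, Fintype.card_fin, Fintype.card_fin]
  ring

/-- Size of the program. -/
theorem log_size (d h ℓ S : ℕ) (hd : 2 ≤ d) (hh : 1 ≤ h) (hS0 : 0 < S)
    (hS : S ≤ (2 * (d * 8) + 1) ^ h * ((2 ^ ℓ) ^ d *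
      ((2 * 2 ^ 10 * (h + 1)) ^ (10 * ℓ) * (2 * 10 * (2 ^ 10) ^ 2 + 2) ^ h) ^ (d * 8 + 1)) + 3)
    (Λ : ℝ) (hΛ : (d : ℝ) * ℓ * Real.log 2 ≤ Λ) :
    Real.log S ≤ (2000 * d : ℝ) * (h + Λ * Real.log (h + 1)) := by
  set X : ℕ := (2 * (d * 8) + 1) ^ h * ((2 ^ ℓ) ^ d *
      ((2 * 2 ^ 10 * (h + 1)) ^ (10 * ℓ) * (2 * 10 * (2 ^ 10) ^ 2 + 2) ^ h) ^ (d * 8 + 1)) with hX
  have hX1 : 1 ≤ X := by
    rw [hX]
    exact Nat.one_le_iff_ne_zero.2 (by positivity)
  have h1 : S ≤ 4 * X := by omega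
  have h2 : (S : ℝ) ≤ 4 * X := by exact_mod_cast h1
  have h3 : Real.log S ≤ Real.log (4 * X) := Real.log_le_log (by exact_mod_cast hS0) h2
  refine h3.trans ?_
  have hX0 : (0 : ℝ) < X := by exact_mod_cast hX1
  have hlX : Real.log X = h * Real.log (2 * (d * 8) + 1) + (d * (ℓ * Real.log 2) + (d * 8 + 1) *
      (10 * ℓ * (Real.log (2 * 2 ^ 10) + Real.log (h + 1)) +
        h * Real.log (2 * 10 * (2 ^ 10) ^ 2 + 2))) := by
    rw [hX]
    push_cast
    rw [Real.log_mul (by positivity) (by positivity), Real.log_mul (by positivity) (by positivity),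
      Real.log_pow, Real.log_pow, Real.log_pow, Real.log_pow,
      Real.log_mul (by positivity) (by positivity), Real.log_pow, Real.log_pow,
      Real.log_mul (by positivity) (by positivity)]
    push_cast
    ring_nf
  rw [Real.log_mul (by norm_num) (by positivity), hlX]
  have hl2 := Real.log_two_gt_d9
  have hl2' := Real.log_two_lt_d9
  have hh1 : (1 : ℝ) ≤ h := by exact_mod_cast hh
  have hd2 : (2 : ℝ) ≤ d := by exact_mod_cast hd
  have hℓ0 : (0 : ℝ) ≤ ℓ := by positivity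
  have a1 : Real.log 4 ≤ 2 := by
    have : (4 : ℝ) = 2 ^ 2 := by norm_num
    rw [this, Real.log_pow]
    push_cast
    linarith
  have a2 : Real.log (2 * (d * 8) + 1) ≤ 16 * d := by
    have := Real.log_le_sub_one_of_pos (show (0 : ℝ) < 2 * (d * 8) + 1 by positivity)
    linarith
  have a3 : Real.log (2 * 2 ^ 10) ≤ 8 := by
    have : (2 * 2 ^ 10 : ℝ) = 2 ^ 11 := by norm_num
    rw [this, Real.log_pow]
    push_cast
    linarith
  have a4 : Real.log (2 * 10 * (2 ^ 10) ^ 2 + 2) ≤ 18 := by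
    have h4 : Real.log (2 * 10 * (2 ^ 10) ^ 2 + 2) ≤ Real.log ((2 : ℝ) ^ 25) :=
      Real.log_le_log (by norm_num) (by norm_num)
    rw [Real.log_pow] at h4
    push_cast at h4
    linarith
  have a5 : Real.log 2 ≤ Real.log (h + 1) := Real.log_le_log (by norm_num) (by linarith)
  set g := Real.log (h + 1) with hg
  have hg0 : 0.69 ≤ g := by linarith
  have a6 : (d : ℝ) * ℓ * 0.69 ≤ Λ := by
    refine le_trans ?_ hΛ
    apply mul_le_mul_of_nonneg_left _ (by positivity)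
    linarith
  have hdl0 : (0 : ℝ) ≤ (d : ℝ) * ℓ := by positivity
  have hΛ0 : 0 ≤ Λ := by nlinarith
  have a7 : (d : ℝ) * (ℓ * Real.log 2) ≤ 2 * (Λ * g) := by
    have : (d : ℝ) * (ℓ * Real.log 2) ≤ Λ := by linarith
    nlinarith
  have a8 : (ℓ : ℝ) * (Real.log (2 * 2 ^ 10) + g) ≤ 13 * (ℓ * g) := by
    have : Real.log (2 * 2 ^ 10) + g ≤ 13 * g := by linarith
    calc (ℓ : ℝ) * (Real.log (2 * 2 ^ 10) + g) ≤ ℓ * (13 * g) :=
          mul_le_mul_of_nonneg_left this hℓ0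
      _ = 13 * (ℓ * g) := by ring
  have a9 : (d : ℝ) * (ℓ * g) ≤ 1.5 * (Λ * g) := by
    have : (d : ℝ) * ℓ ≤ 1.5 * Λ := by linarith
    calc (d : ℝ) * (ℓ * g) = (d * ℓ) * g := by ring
      _ ≤ (1.5 * Λ) * g := mul_le_mul_of_nonneg_right this (by linarith)
      _ = 1.5 * (Λ * g) := by ring
  have a10 : ((d : ℝ) * 8 + 1) * (10 * ℓ * (Real.log (2 * 2 ^ 10) + g) +
        h * Real.log (2 * 10 * (2 ^ 10) ^ 2 + 2)) ≤ 1800 * (Λ * g) + 170 * (d * h) := by
    have e1 : 10 * (ℓ : ℝ) * (Real.log (2 * 2 ^ 10) + g) +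
        h * Real.log (2 * 10 * (2 ^ 10) ^ 2 + 2) ≤ 130 * (ℓ * g) + 18 * h := by
      have e2 : (h : ℝ) * Real.log (2 * 10 * (2 ^ 10) ^ 2 + 2) ≤ h * 18 :=
        mul_le_mul_of_nonneg_left a4 (by linarith)
      nlinarith
    have e3 : (d : ℝ) * 8 + 1 ≤ 9 * d := by linarith
    have e4 : 0 ≤ 130 * ((ℓ : ℝ) * g) + 18 * h := by positivity
    calc ((d : ℝ) * 8 + 1) * (10 * ℓ * (Real.log (2 * 2 ^ 10) + g) +
        h * Real.log (2 * 10 * (2 ^ 10) ^ 2 + 2))
        ≤ ((d : ℝ) * 8 + 1) * (130 * (ℓ * g) + 18 * h) :=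
          mul_le_mul_of_nonneg_left e1 (by positivity)
      _ ≤ (9 * d) * (130 * (ℓ * g) + 18 * h) := mul_le_mul_of_nonneg_right e3 e4
      _ = 1170 * (d * (ℓ * g)) + 162 * (d * h) := by ring
      _ ≤ 1170 * (1.5 * (Λ * g)) + 162 * (d * h) := by linarith
      _ ≤ 1800 * (Λ * g) + 170 * (d * h) := by
          have : 0 ≤ Λ * g := by positivity
          have : 0 ≤ (d : ℝ) * h := by positivity
          nlinarith
  have a11 : (h : ℝ) * Real.log (2 * (d * 8) + 1) ≤ 16 * (d * h) := by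
    calc (h : ℝ) * Real.log (2 * (d * 8) + 1) ≤ h * (16 * d) :=
          mul_le_mul_of_nonneg_left a2 (by linarith)
      _ = 16 * (d * h) := by ring
  have hLg : 0 ≤ Λ * g := by positivity
  have hdh : (2 : ℝ) ≤ d * h := by nlinarith
  have a12 : 1802 * (Λ * g) ≤ 2000 * d * (Λ * g) := by
    apply mul_le_mul_of_nonneg_right _ hLg
    linarith
  calc Real.log 4 + (h * Real.log (2 * (d * 8) + 1) + (d * (ℓ * Real.log 2) + (d * 8 + 1) *
      (10 * ℓ * (Real.log (2 * 2 ^ 10) + g) + h * Real.log (2 * 10 * (2 ^ 10) ^ 2 + 2))))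
      ≤ 2 + (16 * (d * h) + (2 * (Λ * g) + (1800 * (Λ * g) + 170 * (d * h)))) := by linarith
    _ ≤ 2000 * d * (h + Λ * g) := by nlinarith

/-- The unambiguous program. -/
theorem unamb (H : Par β p h ℓ N δ D) (g : Word D (2 * p)) (i : Fin D) :
    ByUnambiguous (rootBit (h := h) (k := 2 ^ ℓ) g i)
      ((2000 * D : ℝ) * (h + Real.log N * Real.log (h + 1))) ((16 * D + 2) ^ h) ((N : ℝ) ^ δ) := by
  have hD := H.hD
  have hb := H.hb
  have hD2 : 2 ≤ D := by
    rw [hD]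
    calc 2 ≤ 2 ^ β := by omega
      _ = (2 ^ β) ^ 1 := (pow_one _).symm
      _ ≤ (2 ^ β) ^ 3 := Nat.pow_le_pow_right (by positivity) (by norm_num)
  have hℓ0 : 1 ≤ ℓ := by
    rw [H.hℓ]
    have := H.hβ
    have := H.hp
    exact Nat.one_le_iff_ne_zero.2 (by positivity)
  have hk : 2 ^ ℓ ≤ ((2 ^ 10) ^ ((10 - 2) * ℓ)) ^ 8 := by
    rw [← pow_mul, ← pow_mul]
    apply Nat.pow_le_pow_right (by norm_num)
    omega
  obtain ⟨P, hP0, hPn⟩ := exists_params_shell (2 ^ ℓ) 8 10 ℓ (2 ^ 10) h (by norm_num) hℓ0 le_rfl hk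
  obtain ⟨M, h1, h2, h3, h4⟩ := exists_BP (d := D) (ρ := 2 * p) P (Nat.one_le_two_pow) hPn g i
  rw [hP0] at h4
  refine ⟨M, h1, h2, ?_, ?_⟩
  · have hpos : 0 < M.size := by
      unfold BP.size
      omega
    refine log_size D h ℓ M.size hD2 H.h1 hpos h4 (Real.log N) ?_
    have h5 := H.log_N
    rw [hD]
    push_cast at h5 ⊢
    exact h5
  · intro x l r hc
    obtain ⟨h5, h6⟩ := h3 x l r hc
    constructor
    · have h7 : (2 * (D * 8) + 1) ^ h + 1 ≤ (16 * D + 2) ^ h := by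
        have h8 : (2 * (D * 8) + 1) ^ h < (16 * D + 2) ^ h :=
          Nat.pow_lt_pow_left (by omega) (by have := H.h1; omega)
        omega
      exact_mod_cast h5.trans h7
    · have h7 : ((l.map M.query).toFinset).card ≤ (h + 1) * (D ^ (2 * p + 1) * D) := by
        apply card_right x
        intro v hv
        rw [List.mem_toFinset] at hv
        obtain ⟨s, hs, rfl⟩ := List.mem_map.1 hv
        exact h6 s hs
      have h8 := nodes_le H.hb H.hp H.hh
      have h9 : (h + 1) * (D ^ (2 * p + 1) * D) ≤ (2 ^ β) ^ (10 * p) := by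
        rw [hD]
        exact h8.trans (Nat.pow_le_pow_right (by positivity) (by omega))
      refine le_trans ?_ H.ge_pow
      exact_mod_cast h7.trans h9

theorem log_regime (x y : ℝ) (hx : 1 ≤ x) (hy : 1 ≤ y)
    (hxy : x * Real.log x ≤ y) : x * Real.log (y + 1) ≤ 2 * y := by
  by_cases h1 : y + 1 ≤ x ^ 2
  · have h2 : Real.log (y + 1) ≤ 2 * Real.log x := by
      have h3 := Real.log_le_log (by linarith) h1
      rw [Real.log_pow] at h3
      push_cast at h3
      exact h3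
    calc x * Real.log (y + 1) ≤ x * (2 * Real.log x) :=
          mul_le_mul_of_nonneg_left h2 (by linarith)
      _ = 2 * (x * Real.log x) := by ring
      _ ≤ 2 * y := by linarith
  · push Not at h1
    set z := Real.sqrt (y + 1) with hz
    have hz2 : z ^ 2 = y + 1 := Real.sq_sqrt (by linarith)
    have hz0 : 0 ≤ z := Real.sqrt_nonneg _
    have hz1 : 1 ≤ z := by nlinarith
    have hxz : x ≤ z := by
      apply Real.le_sqrt_of_sq_le
      exact h1.le
    have h2 : Real.log (y + 1) ≤ 2 * (z - 1) := by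
      rw [← hz2, Real.log_pow]
      have := Real.log_le_sub_one_of_pos (show 0 < z by linarith)
      push_cast
      linarith
    have h3 : 0 ≤ Real.log (y + 1) := Real.log_nonneg (by linarith)
    calc x * Real.log (y + 1) ≤ z * (2 * (z - 1)) :=
          mul_le_mul hxz h2 h3 hz0
      _ = 2 * (z ^ 2) - 2 * z := by ring
      _ ≤ 2 * y := by rw [hz2]; linarith

/-- **Nondeterministic versus deterministic space at all levels.** -/
theorem gap_stmt (δ : ℝ) (hδ : 0 < δ) : ∃ D ℓ₁ : ℕ, 2 ≤ D ∧ 1 ≤ ℓ₁ ∧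
    ∃ c C : ℝ, 0 < c ∧ 0 < C ∧ ∃ p₀ : ℕ,
    ∀ p : ℕ, p₀ ≤ p → ∀ h : ℕ, 1 ≤ h → h ≤ 2 ^ p → ∀ ℓ : ℕ, ℓ = ℓ₁ * p → ∀ N : ℝ,
    N = Fintype.card (Var D (2 * p) h (2 ^ ℓ)) → N ^ c ≤ 2 ^ p ∧
      ∀ (g : Word D (2 * p)) (i : Fin D) (f : Input D (2 * p) h (2 ^ ℓ) → Bool),
      f = rootBit g i →
      ByUnambiguous f (C * (h + Real.log N * Real.log (h + 1))) (C ^ h) (N ^ δ) ∧
      (Real.log N * Real.log (Real.log N) ≤ h →
        ByUnambiguous f (3 * C * h) (C ^ h) (N ^ δ)) ∧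
      ByProgram f (2 * h * Real.log N) (D ^ (h + 1)) (N ^ δ) ∧
      HardReads f (c * h * Real.log N) (N ^ (-c)) (N ^ (1 - δ)) := by
  obtain ⟨β, p₀, hβ, hp₀, hpar⟩ := exists_par δ hδ
  have hb4 : 4 ≤ 2 ^ β := by
    calc 4 = 2 ^ 2 := by norm_num
      _ ≤ 2 ^ β := Nat.pow_le_pow_right (by norm_num) (by omega)
  obtain ⟨D, hD⟩ : ∃ D, D = (2 ^ β) ^ 3 := ⟨_, rfl⟩
  have hD2 : 2 ≤ D := by
    rw [hD]
    calc 2 ≤ 2 ^ β := by omega
      _ = (2 ^ β) ^ 1 := (pow_one _).symm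
      _ ≤ (2 ^ β) ^ 3 := Nat.pow_le_pow_right (by positivity) (by norm_num)
  have hβ0 : (0 : ℝ) < β := by
    have : 0 < β := by omega
    exact_mod_cast this
  have hD2R : (2 : ℝ) ≤ D := by exact_mod_cast hD2
  refine ⟨D, 21 * β, hD2, by omega,
    1 / (4 * (β : ℝ) * (21 * ((2 ^ β : ℕ) : ℝ) ^ 3 + 9)), 2000 * D, by positivity, by positivity,
    p₀ + 4, ?_⟩
  intro p hp h h1 hh ℓ hℓ N' hN'
  obtain ⟨N, hN⟩ : ∃ N, N = Fintype.card (Var D (2 * p) h (2 ^ ℓ)) := ⟨_, rfl⟩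
  rw [← hN] at hN'
  subst hN'
  have hpp : p < 2 ^ p := Nat.lt_two_pow_self
  have hh' : h + 1 ≤ (2 ^ β) ^ (2 * p) := by
    calc h + 1 ≤ 2 ^ p * 2 ^ p := by nlinarith
      _ = 2 ^ (2 * p) := by rw [← pow_add]; congr 1; ring
      _ ≤ (2 ^ β) ^ (2 * p) := Nat.pow_le_pow_left (by omega) _
  have H := hpar D hD p (by omega) h h1 hh' ℓ hℓ N hN
  have hT : ((16 * D + 2 : ℝ)) ^ h ≤ (2000 * D : ℝ) ^ h :=
    pow_le_pow_left₀ (by positivity) (by linarith) h
  refine ⟨?_, ?_⟩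
  · refine H.hNc.trans ?_
    rw [← Real.rpow_natCast]
    apply Real.rpow_le_rpow_of_exponent_le (by norm_num)
    have hp0 : (0 : ℝ) ≤ p := by positivity
    linarith
  · rintro g i f rfl
    have hU : ByUnambiguous (rootBit (h := h) (k := 2 ^ ℓ) g i)
        ((2000 * D : ℝ) * (h + Real.log N * Real.log (h + 1))) ((2000 * D : ℝ) ^ h)
        ((N : ℝ) ^ δ) := by
      obtain ⟨M, e1, e2, e3, e4⟩ := unamb H g i
      exact ⟨M, e1, e2, e3, fun x l r hc => ⟨((e4 x l r hc).1).trans hT, (e4 x l r hc).2⟩⟩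
    refine ⟨hU, ?_, ?_, ?_⟩
    · intro hreg
      obtain ⟨M, e1, e2, e3, e4⟩ := hU
      refine ⟨M, e1, e2, e3.trans ?_, e4⟩
      have hh1 : (1 : ℝ) ≤ h := by exact_mod_cast h1
      have hx1 : (4 : ℝ) ≤ Real.log N := by
        have e5 := H.log_N
        have e6 : (1 : ℝ) ≤ ℓ := by
          have : 1 ≤ ℓ := by
            rw [hℓ]
            have hβ1 : 0 < β := by omega
            have hp1 : 0 < p := by omega
            exact Nat.one_le_iff_ne_zero.2 (by positivity)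
          exact_mod_cast this
        have e7 : (4 : ℝ) ≤ ((2 ^ β : ℕ) : ℝ) := by exact_mod_cast hb4
        have e8 := Real.log_two_gt_d9
        have e9 : (64 : ℝ) ≤ ((2 ^ β : ℕ) : ℝ) ^ 3 := by
          calc (64 : ℝ) = 4 ^ 3 := by norm_num
            _ ≤ _ := pow_le_pow_left₀ (by norm_num) e7 3
        have e10 : (64 : ℝ) * 1 * 0.69 ≤ ((2 ^ β : ℕ) : ℝ) ^ 3 * ℓ * Real.log 2 := by
          apply mul_le_mul _ (by linarith) (by norm_num) (by positivity)
          exact mul_le_mul e9 e6 (by norm_num) (by positivity)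
        linarith
      have e11 := log_regime (Real.log N) h (by linarith) hh1 hreg
      calc (2000 * D : ℝ) * (h + Real.log N * Real.log (h + 1)) ≤ (2000 * D : ℝ) * (h + 2 * h) :=
            mul_le_mul_of_nonneg_left (by linarith) (by positivity)
        _ = 3 * (2000 * D) * h := by ring
    · obtain ⟨P, h2, h3⟩ := H.space g i
      refine ⟨P, h2, ?_⟩
      intro x
      obtain ⟨t, m, h4, h5, h6⟩ := h3 x
      exact ⟨t, m, by exact_mod_cast h4, h5, h6⟩
    · intro P T M R hS hrun hag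
      exact H.law hh g i P T M R hS hrun hag

end Pool.Agent.W997.UG
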