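import Pool.Agent.W997.UF.ToBP
import Pool.Agent.W997.DB.Stmt

/-!
# The recursive unambiguous program for the unrolled De Bruijn graph
-/

set_option autoImplicit false

namespace Pool.Agent.W997.UG

open Pool.Agent.W997.DB
open Pool.Agent.W997.TS (bit)
open Pool.Agent.W997.UF (J emb emb_ne emb_inj emb_surj IsEnc leafFrag queryFrag good_leaf run_query
  exists_enc len_seq)
open Pool.Agent.H554R2.Thrifty (Frag Params Rel SRel seqFrag good_seq BP card_seq B_le toBP
  isComp_toBP)
open Pool.Agent.H554R2.Thrifty.Frag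

variable {d ρ h k q : ℕ}

/-- The recursive program for the node `(m, g, i)`. -/
noncomputable def prog (P : Params k q) : (m : ℕ) → m ≤ h → Word d ρ → Fin d → J d q →
    (Fin k → ℕ → ℕ → Prop) → Frag (Var d ρ h k) k (J d q → ℕ)
  | 0, _, g, i, j, Ψ => leafFrag k d q (P.B 0) (Sum.inr (g, i)) j Ψ
  | m + 1, hm, g, i, j, Ψ =>
    comp (seqFrag (fun a => ∀ i, a i < P.B m)
        (fun e : Fin d × Fin q => prog P m (Nat.le_of_succ_le hm) (shift g i) e.1 (emb j e)
          (fun c y z => y < P.B (m + 1) ∧ z = P.lft m (P.dg c e.2) y))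
        Finset.univ.toList)
      (comp (queryFrag P.dg (P.B (m + 1)) (P.lft m) (P.rgt m)
          (fun w => Sum.inl (⟨m, hm⟩, g, i, w)) j Ψ)
        (seqFrag (fun a => ∀ i, a i < P.B m)
          (fun e : Fin d × Fin q => prog P m (Nat.le_of_succ_le hm) (shift g i) e.1 (emb j e)
            (fun c y z => z < P.B (m + 1) ∧ y = P.rgt m (P.dg c e.2) z))
          Finset.univ.toList))

/-- The variables which belong to the true values of the nodes. -/
def Right (x : Input d ρ h k) (v : Var d ρ h k) : Prop := ∃ a, v = (sys d ρ h k).pos (valF x) a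

theorem right_leaf (x : Input d ρ h k) (g : Word d ρ) (i : Fin d) :
    Right x (Sum.inr (g, i)) := ⟨((⟨0, Nat.succ_pos h⟩, g), i), rfl⟩

theorem right_inner (x : Input d ρ h k) (m : ℕ) (hm : m + 1 ≤ h) (g : Word d ρ) (i : Fin d) :
    Right x (Sum.inl (⟨m, hm⟩, g, i, fun s => value x m (Nat.le_of_succ_le hm) (shift g i) s)) :=
  ⟨((⟨m + 1, Nat.lt_succ_of_le hm⟩, g), i), rfl⟩

theorem good_prog (P : Params k q) (x : Input d ρ h k) : ∀ (m : ℕ) (hm : m ≤ h)
    (g : Word d ρ) (i : Fin d) (j : J d q) (Ψ : Fin k → ℕ → ℕ → Prop),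
    (prog P m hm g i j Ψ).Good x (Right x) (Rel (P.B m) j (Ψ (value x m hm g i))) ∧
      ∀ a l b, (prog P m hm g i j Ψ).Run x a l b → l.length ≤ (2 * (d * q) + 1) ^ m
  | 0, hm, g, i, j, Ψ => by
    have h := good_leaf k d q (P.B 0) (Sum.inr (g, i) : Var d ρ h k) j Ψ x
    refine ⟨⟨?_, h.1.complete, h.1.unique⟩, fun a l b hr => ?_⟩
    · intro a l b hr
      exact ⟨(h.1.sound a l b hr).1, fun _ _ => right_leaf x g i⟩
    · refine (h.2 a l b hr).le.trans ?_
      rw [pow_zero]
  | m + 1, hm, g, i, j, Ψ => by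
    set w : Fin d → Fin k := fun s => value x m (Nat.le_of_succ_le hm) (shift g i) s with hw
    have hval : value x (m + 1) hm g i = x (Sum.inl (⟨m, hm⟩, g, i, w)) := rfl
    rw [hval]
    set CL := fun e : Fin d × Fin q =>
      prog (h := h) (d := d) P m (Nat.le_of_succ_le hm) (shift g i) e.1 (emb j e)
          (fun c y z => y < P.B (m + 1) ∧ z = P.lft m (P.dg c e.2) y)
      with hCL
    set CR := fun e : Fin d × Fin q =>
      prog (h := h) (d := d) P m (Nat.le_of_succ_le hm) (shift g i) e.1 (emb j e)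
          (fun c y z => z < P.B (m + 1) ∧ y = P.rgt m (P.dg c e.2) z)
      with hCR
    have gL := fun e : Fin d × Fin q => good_prog P x m (Nat.le_of_succ_le hm) (shift g i) e.1
      (emb j e) (fun c y z => y < P.B (m + 1) ∧ z = P.lft m (P.dg c e.2) y)
    have gR := fun e : Fin d × Fin q => good_prog P x m (Nat.le_of_succ_le hm) (shift g i) e.1
      (emb j e) (fun c y z => z < P.B (m + 1) ∧ y = P.rgt m (P.dg c e.2) z)
    have sL : (seqFrag (fun a : J d q → ℕ => ∀ i, a i < P.B m) CL Finset.univ.toList).Good x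
        (Right x) (SRel (P.B m) (emb j)
          (fun e y z => y < P.B (m + 1) ∧ z = P.lft m (P.dg (w e.1) e.2) y)
          Finset.univ.toList) :=
      good_seq (emb j) (emb_inj j) (P.B m) _ CL (fun e => (gL e).1) Finset.univ.toList
        (Finset.nodup_toList _)
    have sR : (seqFrag (fun a : J d q → ℕ => ∀ i, a i < P.B m) CR Finset.univ.toList).Good x
        (Right x) (SRel (P.B m) (emb j)
          (fun e y z => z < P.B (m + 1) ∧ y = P.rgt m (P.dg (w e.1) e.2) z)
          Finset.univ.toList) :=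
      good_seq (emb j) (emb_inj j) (P.B m) _ CR (fun e => (gR e).1) Finset.univ.toList
        (Finset.nodup_toList _)
    have tL := len_seq (fun a : J d q → ℕ => ∀ i, a i < P.B m) CL x _
      (fun e => (gL e).2) Finset.univ.toList
    have tR := len_seq (fun a : J d q → ℕ => ∀ i, a i < P.B m) CR x _
      (fun e => (gR e).2) Finset.univ.toList
    set FL := seqFrag (fun a : J d q → ℕ => ∀ i, a i < P.B m) CL Finset.univ.toList with hFL
    set FR := seqFrag (fun a : J d q → ℕ => ∀ i, a i < P.B m) CR Finset.univ.toList with hFR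
    set FQ := queryFrag P.dg (P.B (m + 1)) (P.lft m) (P.rgt m)
      (fun w => (Sum.inl (⟨m, hm⟩, g, i, w) : Var d ρ h k)) j Ψ with hFQ
    have hprog : prog P (m + 1) hm g i j Ψ = comp FL (comp FQ FR) := rfl
    rw [hprog]
    have hmem : ∀ e : Fin d × Fin q, e ∈ (Finset.univ : Finset (Fin d × Fin q)).toList := by
      intro e; simp
    have hlen : (Finset.univ : Finset (Fin d × Fin q)).toList.length = d * q := by
      rw [Finset.length_toList, Finset.card_univ, Fintype.card_prod, Fintype.card_fin,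
        Fintype.card_fin]
    rw [hlen] at tL tR
    -- decomposition of runs
    have hrun : ∀ a l b, (comp FL (comp FQ FR)).Run x a l b →
        ∃ (l1 : List FL.Q) (l3 : List FR.Q) (m1 m' : J d q → ℕ)
          (s : J d q → Fin (P.B (m + 1))),
          l = l1.map Sum.inl ++ (([((w, s) : FQ.Q)] : List FQ.Q).map Sum.inl ++
            l3.map Sum.inr).map Sum.inr ∧
          FL.Run x a l1 m1 ∧ FR.Run x m' l3 b ∧ (a = fun i => (s i : ℕ)) ∧
          IsEnc P.dg (P.lft m) j w a m1 ∧ IsEnc P.dg (P.rgt m) j w b m' ∧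
          Rel (P.B (m + 1)) j (Ψ (x (Sum.inl (⟨m, hm⟩, g, i, w)))) a b := by
      intro a l b h
      obtain ⟨m1, l1, l23, rfl, r1, r23⟩ := (run_comp _ _ x a b l).1 h
      obtain ⟨m', l2, l3, rfl, r2, r3⟩ := (run_comp _ _ x m1 b l23).1 r23
      obtain ⟨⟨w', s⟩, rfl, e1, b', e2, e3⟩ := (run_query _ _ _ _ _ _ _ _ _ _ _).1 r2
      obtain ⟨⟨u1, u2, u3, u4⟩, -⟩ := sL.sound _ _ _ r1
      obtain ⟨⟨w1, w2, w3, w4⟩, -⟩ := sR.sound _ _ _ r3
      obtain ⟨e11, e12⟩ := e1
      obtain ⟨e31, e32⟩ := e3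
      obtain ⟨e21, e22, e23, e24⟩ := e2
      simp only at e11 e12 e31 e32 e21 e22 e23 e24
      have hdig : ∀ e : Fin d × Fin q, P.dg (w e.1) e.2 = P.dg (w' e.1) e.2 := by
        intro e
        obtain ⟨u31, u32⟩ := u3 e (hmem e)
        obtain ⟨w31, w32⟩ := w3 e (hmem e)
        refine P.key m _ _ (a (emb j e)) (s (emb j e)) (b (emb j e)) (P.dg_lt _ _) (P.dg_lt _ _)
          u31 (s (emb j e)).2 w31 ?_ ?_
        · rw [← u32, e12 e]
        · rw [← w32, e32 e, e24 _ (emb_ne j e)]
      have hvw : w = w' := by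
        funext s'
        exact P.dg_inj _ _ (fun t => hdig (s', t))
      subst hvw
      have has : a = fun i => (s i : ℕ) := by
        funext i
        by_cases hi : i = j
        · subst hi
          rw [← e11]
          exact (u4 i (fun e _ => emb_ne i e)).symm
        · obtain ⟨e, rfl⟩ := emb_surj j i hi
          obtain ⟨u31, u32⟩ := u3 e (hmem e)
          refine P.lft_inj m _ _ _ (P.dg_lt (w e.1) e.2) u31 (s (emb j e)).2 ?_
          rw [← u32, e12 e]
      have hbb : b' = b := by
        funext i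
        by_cases hi : i = j
        · subst hi
          rw [← e31]
          exact (w4 i (fun e _ => emb_ne i e)).symm
        · obtain ⟨e, rfl⟩ := emb_surj j i hi
          obtain ⟨w31, w32⟩ := w3 e (hmem e)
          refine P.rgt_inj m _ _ _ (P.dg_lt (w e.1) e.2) (e22 _) w31 ?_
          rw [← w32, e32 e]
      subst hbb
      refine ⟨l1, l3, m1, m', s, rfl, r1, r3, has, ?_, ⟨e31, e32⟩, ?_⟩
      · rw [has]; exact ⟨e11, e12⟩
      · rw [has]; exact ⟨e21, e22, e23, e24⟩
    refine ⟨⟨?_, ?_, ?_⟩, ?_⟩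
    · intro a l b h
      obtain ⟨l1, l3, m1, m', s, rfl, r1, r3, has, e1, e2, hrel⟩ := hrun a l b h
      refine ⟨hrel, ?_⟩
      intro q' hq'
      rcases List.mem_append.1 hq' with h1 | h1
      · obtain ⟨q1, hq1, rfl⟩ := List.mem_map.1 h1
        exact (sL.sound _ _ _ r1).2 q1 hq1
      · obtain ⟨q1, hq1, rfl⟩ := List.mem_map.1 h1
        rcases List.mem_append.1 hq1 with h2 | h2
        · obtain ⟨q2, hq2, rfl⟩ := List.mem_map.1 h2
          have hq3 : q2 = ((w, s) : FQ.Q) := List.eq_of_mem_singleton hq2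
          subst hq3
          exact right_inner x m hm g i
        · obtain ⟨q2, hq2, rfl⟩ := List.mem_map.1 h2
          exact (sR.sound _ _ _ r3).2 q2 hq2
    · intro a b hab
      obtain ⟨h1, h2, h3, h4⟩ := hab
      obtain ⟨m1, hm1⟩ := exists_enc P.dg (P.lft m) j w a
      obtain ⟨m', hm'⟩ := exists_enc P.dg (P.rgt m) j w b
      have hmB : ∀ i, m1 i < P.B m := by
        intro i
        by_cases hi : i = j
        · subst hi; rw [hm1.1]; exact lt_of_lt_of_le (h1 i) (P.mono m)
        · obtain ⟨e, rfl⟩ := emb_surj j i hi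
          rw [hm1.2]; exact P.lft_lt _ _ _ (P.dg_lt _ _) (h1 _)
      have hmB' : ∀ i, m' i < P.B m := by
        intro i
        by_cases hi : i = j
        · subst hi; rw [hm'.1]; exact lt_of_lt_of_le (h2 i) (P.mono m)
        · obtain ⟨e, rfl⟩ := emb_surj j i hi
          rw [hm'.2]; exact P.rgt_lt _ _ _ (P.dg_lt _ _) (h2 _)
      obtain ⟨l1, hl1⟩ := sL.complete a m1 ⟨fun i => lt_of_lt_of_le (h1 i) (P.mono m), hmB,
        fun e _ => ⟨h1 _, hm1.2 e⟩, fun i hi => by
          by_cases hij : i = j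
          · subst hij; exact hm1.1
          · obtain ⟨e, he⟩ := emb_surj j i hij
            exact absurd he (hi e (hmem e))⟩
      obtain ⟨l3, hl3⟩ := sR.complete m' b ⟨hmB', fun i => lt_of_lt_of_le (h2 i) (P.mono m),
        fun e _ => ⟨h2 _, hm'.2 e⟩, fun i hi => by
          by_cases hij : i = j
          · subst hij; exact hm'.1.symm
          · obtain ⟨e, he⟩ := emb_surj j i hij
            exact absurd he (hi e (hmem e))⟩
      refine ⟨_, (run_comp _ _ x a b _).2 ⟨m1, l1, _, rfl, hl1,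
        (run_comp _ _ x m1 b _).2 ⟨m', [(w, fun i => ⟨a i, h1 i⟩)], l3, rfl, ?_, hl3⟩⟩⟩
      exact (run_query _ _ _ _ _ _ _ _ _ _ _).2 ⟨(w, fun i => ⟨a i, h1 i⟩), rfl, hm1, b,
        ⟨h1, h2, h3, h4⟩, hm'⟩
    · intro a b l l' h h'
      obtain ⟨l1, l3, m1, m', s, rfl, r1, r3, has, e1, e2, -⟩ := hrun a l b h
      obtain ⟨l1', l3', m2, m2', s', rfl, r1', r3', has', e1', e2', -⟩ := hrun a l' b h'
      have hss : s = s' := by
        funext i
        exact Fin.ext (congrFun (has.symm.trans has') i)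
      have hm12 : m1 = m2 := by
        funext i
        by_cases hi : i = j
        · subst hi; rw [e1.1, e1'.1]
        · obtain ⟨e, rfl⟩ := emb_surj j i hi
          rw [e1.2, e1'.2]
      have hm' : m' = m2' := by
        funext i
        by_cases hi : i = j
        · subst hi; rw [e2.1, e2'.1]
        · obtain ⟨e, rfl⟩ := emb_surj j i hi
          rw [e2.2, e2'.2]
      subst hss hm12 hm'
      rw [sL.unique _ _ _ _ r1 r1', sR.unique _ _ _ _ r3 r3']
    · intro a l b h
      obtain ⟨l1, l3, m1, m', s, rfl, r1, r3, -⟩ := hrun a l b h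
      have f1 := tL _ _ _ r1
      have f3 := tR _ _ _ r3
      have hone : 1 ≤ (2 * (d * q) + 1) ^ m := Nat.one_le_pow _ _ (by omega)
      have e4 : (l1.map Sum.inl ++ (([((w, s) : FQ.Q)] : List FQ.Q).map Sum.inl ++
            l3.map Sum.inr).map Sum.inr : List (FL.Q ⊕ (FQ.Q ⊕ FR.Q))).length =
            l1.length + (1 + l3.length) := by
        simp only [List.length_append, List.length_map]
        rfl
      refine (le_of_eq e4).trans ?_
      calc l1.length + (1 + l3.length)
          ≤ d * q * (2 * (d * q) + 1) ^ m + ((2 * (d * q) + 1) ^ m +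
            d * q * (2 * (d * q) + 1) ^ m) := by
            apply Nat.add_le_add f1
            apply Nat.add_le_add _ f3
            omega
        _ = (2 * (d * q) + 1) ^ (m + 1) := by ring

theorem card_prog (P : Params k q) (hk : 1 ≤ k) : ∀ (m : ℕ) (hm : m ≤ h) (g : Word d ρ)
    (i : Fin d) (j : J d q) (Ψ : Fin k → ℕ → ℕ → Prop),
      Finite (prog P m hm g i j Ψ).Q ∧
      Nat.card (prog P m hm g i j Ψ).Q ≤
        (2 * (d * q) + 1) ^ m * (k ^ d * P.B 0 ^ (d * q + 1))
  | 0, hm, g, i, j, Ψ => by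
    have hq : (prog P 0 hm g i j Ψ).Q = (J d q → Fin (P.B 0)) := rfl
    rw [hq]
    refine ⟨inferInstance, ?_⟩
    rw [Nat.card_eq_fintype_card, Fintype.card_fun, Fintype.card_fin, Fintype.card_option,
      Fintype.card_prod, Fintype.card_fin, Fintype.card_fin, pow_zero, one_mul]
    exact Nat.le_mul_of_pos_left _ (by positivity)
  | m + 1, hm, g, i, j, Ψ => by
    set X := k ^ d * P.B 0 ^ (d * q + 1) with hX
    have hlen : (Finset.univ : Finset (Fin d × Fin q)).toList.length = d * q := by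
      rw [Finset.length_toList, Finset.card_univ, Fintype.card_prod, Fintype.card_fin,
        Fintype.card_fin]
    have h1 := card_seq (fun a : J d q → ℕ => ∀ i, a i < P.B m)
      (fun e : Fin d × Fin q => prog (h := h) P m (Nat.le_of_succ_le hm) (shift g i) e.1 (emb j e)
          (fun c y z => y < P.B (m + 1) ∧ z = P.lft m (P.dg c e.2) y))
      ((2 * (d * q) + 1) ^ m * X) (fun e => card_prog P hk m _ _ _ _ _) Finset.univ.toList
    have h2 := card_seq (fun a : J d q → ℕ => ∀ i, a i < P.B m)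
      (fun e : Fin d × Fin q => prog (h := h) P m (Nat.le_of_succ_le hm) (shift g i) e.1 (emb j e)
          (fun c y z => z < P.B (m + 1) ∧ y = P.rgt m (P.dg c e.2) z))
      ((2 * (d * q) + 1) ^ m * X) (fun e => card_prog P hk m _ _ _ _ _) Finset.univ.toList
    rw [hlen] at h1 h2
    obtain ⟨f1, c1⟩ := h1
    obtain ⟨f2, c2⟩ := h2
    have hq : (prog P (m + 1) hm g i j Ψ).Q =
      ((seqFrag (fun a : J d q → ℕ => ∀ i, a i < P.B m)
      (fun e : Fin d × Fin q => prog (h := h) P m (Nat.le_of_succ_le hm) (shift g i) e.1 (emb j e)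
          (fun c y z => y < P.B (m + 1) ∧ z = P.lft m (P.dg c e.2) y))
          Finset.univ.toList).Q ⊕ (((Fin d → Fin k) × (J d q → Fin (P.B (m + 1)))) ⊕
        (seqFrag (fun a : J d q → ℕ => ∀ i, a i < P.B m)
      (fun e : Fin d × Fin q => prog (h := h) P m (Nat.le_of_succ_le hm) (shift g i) e.1 (emb j e)
          (fun c y z => z < P.B (m + 1) ∧ y = P.rgt m (P.dg c e.2) z))
          Finset.univ.toList).Q)) := rfl
    rw [hq]
    refine ⟨inferInstance, ?_⟩
    rw [Nat.card_sum, Nat.card_sum]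
    have hmid : Nat.card ((Fin d → Fin k) × (J d q → Fin (P.B (m + 1)))) ≤ X := by
      rw [Nat.card_eq_fintype_card, Fintype.card_prod, Fintype.card_fun, Fintype.card_fun,
        Fintype.card_fin, Fintype.card_fin, Fintype.card_option,
        Fintype.card_prod, Fintype.card_fin, Fintype.card_fin, hX, Fintype.card_fin]
      exact Nat.mul_le_mul_left _ (Nat.pow_le_pow_left (B_le P (m + 1)) _)
    have hone : 1 ≤ (2 * (d * q) + 1) ^ m := Nat.one_le_pow _ _ (by omega)
    calc _ ≤ d * q * ((2 * (d * q) + 1) ^ m * X) + (X + d * q * ((2 * (d * q) + 1) ^ m * X)) :=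
          Nat.add_le_add c1 (Nat.add_le_add hmid c2)
      _ ≤ d * q * ((2 * (d * q) + 1) ^ m * X) +
          ((2 * (d * q) + 1) ^ m * X + d * q * ((2 * (d * q) + 1) ^ m * X)) := by
          have : X ≤ (2 * (d * q) + 1) ^ m * X := Nat.le_mul_of_pos_left _ hone
          omega
      _ = (2 * (d * q) + 1) ^ (m + 1) * X := by ring

/-- The unambiguous program for given parameters. -/
theorem exists_BP (P : Params k q) (hk : 1 ≤ k) (hB : 2 ≤ P.B h) (g : Word d ρ) (i : Fin d) :
    ∃ M : BP (Var d ρ h k) k, M.Unambiguous ∧ M.Solves (rootBit g i) ∧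
      (∀ x l r, M.IsComp x l r → l.length ≤ (2 * (d * q) + 1) ^ h + 1 ∧
        ∀ s ∈ l, Right x (M.query s)) ∧
      M.size ≤ (2 * (d * q) + 1) ^ h * (k ^ d * P.B 0 ^ (d * q + 1)) + 3 := by
  classical
  set Ψ : Fin k → ℕ → ℕ → Prop := fun c y z => y = 0 ∧ z = if bit c then 1 else 0 with hΨ
  set F : Frag (Var d ρ h k) k (J d q → ℕ) := prog P h le_rfl g i none Ψ with hF
  obtain ⟨hfin, hcard⟩ := card_prog P hk h le_rfl g i none Ψ
  have : Finite F.Q := hfin
  set a0 : J d q → ℕ := fun _ => 0 with ha0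
  set acc : (J d q → ℕ) → Bool := fun b => decide (b none = 1) with hacc
  have good := fun x : Input d ρ h k => good_prog P x h le_rfl g i none Ψ
  have hroot : ∀ x : Input d ρ h k, bit (value x h le_rfl g i) = rootBit g i x := fun x => rfl
  set v0 : Var d ρ h k := Sum.inr (g, i) with hv0'
  refine ⟨toBP F v0 a0 acc, ?_, ?_, ?_, ?_⟩
  · intro x l l' r r' h h'
    obtain ⟨l1, b, rfl, h1, h2⟩ := (isComp_toBP F _ a0 acc x r l).1 h
    obtain ⟨l1', b', rfl, h1', h2'⟩ := (isComp_toBP F _ a0 acc x r' l').1 h'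
    obtain ⟨⟨-, -, h3, h4⟩, -⟩ := (good x).1.sound _ _ _ h2
    obtain ⟨⟨-, -, h3', h4'⟩, -⟩ := (good x).1.sound _ _ _ h2'
    have hb : b = b' := by
      funext i
      by_cases hi : i = none
      · subst hi; rw [h3.2, h3'.2]
      · rw [h4 i hi, h4' i hi]
    subst hb
    rw [(good x).1.unique _ _ _ _ h2 h2', ← h1, ← h1']
    exact ⟨rfl, rfl⟩
  · intro x
    have hacc' : ∀ b : J d q → ℕ, b none = (if bit (value x h le_rfl g i) then 1 else 0) →
        acc b = bit (value x h le_rfl g i) := by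
      intro b hb
      simp only [hacc, hb]
      by_cases h : bit (value x h le_rfl g i) = true
      · simp [h]
      · simp [h]
    rw [← hroot]
    constructor
    · set b : J d q → ℕ := fun i' => if i' = none then
        (if bit (value x h le_rfl g i) then 1 else 0) else 0 with hb
      have hR : Rel (P.B h) none (Ψ (value x h le_rfl g i)) a0 b := by
        refine ⟨fun i => by simp only [ha0]; omega, fun i => ?_, ⟨rfl, by simp [hb]⟩,
          fun i hi => by simp [hb, hi, ha0]⟩
        simp only [hb]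
        split_ifs <;> omega
      obtain ⟨l, hl⟩ := (good x).1.complete a0 b hR
      exact ⟨_, (isComp_toBP F _ a0 acc x _ _).2 ⟨l, b, rfl, hacc' b (by simp [hb]), hl⟩⟩
    · intro l r h
      obtain ⟨l1, b, rfl, h1, h2⟩ := (isComp_toBP F _ a0 acc x r l).1 h
      obtain ⟨⟨-, -, h3, h4⟩, -⟩ := (good x).1.sound _ _ _ h2
      rw [← h1]
      exact hacc' b h3.2
  · intro x l r h
    obtain ⟨l1, b, rfl, h1, h2⟩ := (isComp_toBP F _ a0 acc x r l).1 h
    have h3 := (good x).2 _ _ _ h2
    have h4 : (none :: l1.map some : List (Option F.Q)).length = l1.length + 1 := by simp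
    refine ⟨(le_of_eq h4).trans (by omega), ?_⟩
    intro s hs
    rcases List.mem_cons.1 hs with rfl | hs
    · exact right_leaf x g i
    · obtain ⟨s', hs', rfl⟩ := List.mem_map.1 hs
      exact ((good x).1.sound _ _ _ h2).2 s' hs'
  · have h1 : (toBP F v0 a0 acc).size = Nat.card (Option F.Q) + 2 := by
      unfold BP.size
      rw [← Nat.card_eq_fintype_card]
      rfl
    have h2 : Nat.card (Option F.Q) = Nat.card F.Q + 1 := Finite.card_option
    have h3 : Nat.card F.Q = Nat.card (prog P h le_rfl g i none Ψ).Q := rfl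
    omega

end Pool.Agent.W997.UG
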